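import Mathlib

set_option autoImplicit false

open MeasureTheory Filter Set Topology

namespace Pool.Agent.Results.MP_e444d1_an.NoCBFInterpolant

/-- `m` is completely monotone on `(0,∞)`: smooth with `(-1)^k m^{(k)} ≥ 0` there, for all `k`. -/
def IsCM (m : ℝ → ℝ) : Prop :=
  ContDiffOn ℝ (⊤ : ℕ∞) m (Ioi 0) ∧ ∀ k : ℕ, ∀ t : ℝ, 0 < t → 0 ≤ (-1) ^ k * iteratedDeriv k m t

/-- `F` is a complete Bernstein function on `(0,∞)`: there are `a, b ≥ 0` and a completely monotone
`m` with `∫ min(1,t) m(t) dt < ∞` and `F(x) = a + b x + ∫ (1 - e^{-xt}) m(t) dt` for `x > 0`. -/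
def IsCBF (F : ℝ → ℝ) : Prop :=
  ∃ a b : ℝ, ∃ m : ℝ → ℝ, 0 ≤ a ∧ 0 ≤ b ∧ IsCM m ∧
    IntegrableOn (fun t => min 1 t * m t) (Ioi 0) ∧
    ∀ x : ℝ, 0 < x → F x = a + b * x + ∫ t in Ioi (0:ℝ), (1 - Real.exp (-(x * t))) * m t

lemma IsCM.nonneg {m : ℝ → ℝ} (hm : IsCM m) {t : ℝ} (ht : 0 < t) : 0 ≤ m t := by
  have := hm.2 0 t ht
  simpa using this

lemma IsCM.antitoneOn {m : ℝ → ℝ} (hm : IsCM m) : AntitoneOn m (Ioi 0) := by
  apply antitoneOn_of_deriv_nonpos (convex_Ioi 0) hm.1.continuousOn
  · rw [interior_Ioi]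
    exact hm.1.differentiableOn (by simp)
  · rw [interior_Ioi]
    intro t ht
    have := hm.2 1 t ht
    rw [iteratedDeriv_one] at this
    linarith

lemma integ {m : ℝ → ℝ} (hm : IsCM m) (hi : IntegrableOn (fun t => min 1 t * m t) (Ioi 0))
    {x : ℝ} (hx : 0 < x) :
    IntegrableOn (fun t => (1 - Real.exp (-(x * t))) * m t) (Ioi 0) := by
  have h1 := hi.const_mul (max 1 x)
  refine Integrable.mono' h1 ?_ ?_
  · apply ContinuousOn.aestronglyMeasurable _ measurableSet_Ioi
    exact ContinuousOn.mul (by fun_prop) hm.1.continuousOn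
  · filter_upwards [ae_restrict_mem measurableSet_Ioi] with t ht
    have ht' : (0:ℝ) < t := ht
    have h2 : 0 ≤ 1 - Real.exp (-(x * t)) := by
      have : Real.exp (-(x * t)) ≤ 1 := by
        rw [Real.exp_le_one_iff]; have := mul_pos hx ht'; linarith
      linarith
    have h3 : 1 - Real.exp (-(x * t)) ≤ max 1 x * min 1 t := by
      have e1 : 1 - Real.exp (-(x * t)) ≤ 1 := by
        have := Real.exp_pos (-(x * t)); linarith
      have e2 : 1 - Real.exp (-(x * t)) ≤ x * t := by
        have := Real.add_one_le_exp (-(x * t)); linarith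
      rcases le_total 1 t with h | h
      · rw [min_eq_left h]; have := le_max_left 1 x; linarith
      · rw [min_eq_right h]
        have : x * t ≤ max 1 x * t := by gcongr; exact le_max_right _ _
        linarith
    rw [Real.norm_eq_abs, abs_of_nonneg (mul_nonneg h2 (hm.nonneg ht')), ← mul_assoc]
    exact mul_le_mul_of_nonneg_right h3 (hm.nonneg ht')

/-- For real `p > 1` and `-1 < N, D < 1`, the sequence `a_n = (p^n + N)/(p^n + D)` is interpolated by
a complete Bernstein function if and only if `N = D`. -/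
theorem result (p N D : ℝ) (hp : 1 < p) (hN : -1 < N) (_hN1 : N < 1) (hD : -1 < D) (_hD1 : D < 1) :
    (∃ F : ℝ → ℝ, IsCBF F ∧ Tendsto F (𝓝[>] 0) (𝓝 ((1 + N) / (1 + D))) ∧
      ∀ n : ℕ, 1 ≤ n → F n = (p ^ n + N) / (p ^ n + D)) ↔ N = D := by
  constructor
  swap
  · intro hND
    refine ⟨fun _ => 1, ⟨1, 0, fun _ => 0, by norm_num, le_rfl, ⟨contDiffOn_const, ?_⟩, by simp,
      by simp⟩, ?_, ?_⟩
    · intro k t _
      rcases Nat.eq_zero_or_pos k with h | h
      · subst h; simp
      · simp
    · rw [hND, div_self (by linarith)]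
      exact tendsto_const_nhds
    · intro n _
      have : 1 ≤ p ^ n := one_le_pow₀ hp.le
      rw [hND, div_self (by linarith)]
  rintro ⟨F, ⟨a, b, m, _, hb, hm, hi, hF⟩, hF0, hFn⟩
  have hpn : ∀ n : ℕ, 1 ≤ p ^ n := fun n => one_le_pow₀ hp.le
  have hpos : ∀ n : ℕ, 0 < p ^ n + D := fun n => by have := hpn n; linarith
  -- the difference formula
  have hdiff : ∀ x : ℝ, 0 < x → F (2 * x) - F x = b * x +
      ∫ t in Ioi (0:ℝ), (Real.exp (-(x * t)) - Real.exp (-(2 * x * t))) * m t := by
    intro x hx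
    rw [hF x hx, hF (2 * x) (by positivity)]
    have e : ∫ t in Ioi (0:ℝ), (Real.exp (-(x * t)) - Real.exp (-(2 * x * t))) * m t
        = (∫ t in Ioi (0:ℝ), (1 - Real.exp (-(2 * x * t))) * m t)
          - ∫ t in Ioi (0:ℝ), (1 - Real.exp (-(x * t))) * m t := by
      rw [← integral_sub (integ hm hi (by positivity)) (integ hm hi hx)]
      congr 1
      ext t; ring
    rw [e]; ring
  have hint : ∀ x : ℝ, 0 < x → IntegrableOn
      (fun t => (Real.exp (-(x * t)) - Real.exp (-(2 * x * t))) * m t) (Ioi 0) := by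
    intro x hx
    have h := (integ hm hi (show 0 < 2 * x by positivity)).sub (integ hm hi hx)
    refine h.congr ?_
    filter_upwards with t
    simp only [Pi.sub_apply]; ring
  have hnn : ∀ x : ℝ, 0 < x → ∀ t : ℝ, 0 < t →
      0 ≤ (Real.exp (-(x * t)) - Real.exp (-(2 * x * t))) * m t := by
    intro x hx t ht
    apply mul_nonneg _ (hm.nonneg ht)
    have : Real.exp (-(2 * x * t)) ≤ Real.exp (-(x * t)) := by
      apply Real.exp_le_exp.mpr
      have := mul_pos hx ht
      nlinarith
    linarith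
  -- upper bound
  have hup : ∀ n : ℕ, 1 ≤ n → F (2 * n) - F n ≤ |D - N| * 2 / (p ^ n + D) := by
    intro n hn
    have e1 : F (2 * n) = (p ^ (2 * n) + N) / (p ^ (2 * n) + D) := by
      have := hFn (2 * n) (by omega)
      push_cast at this; exact this
    rw [e1, hFn n hn]
    have h1 := hpos n
    have h2 := hpos (2 * n)
    have h3 : p ^ n ≤ p ^ (2 * n) := pow_le_pow_right₀ hp.le (by omega)
    have e2 : (p ^ (2 * n) + N) / (p ^ (2 * n) + D) - (p ^ n + N) / (p ^ n + D)
        = (D - N) / (p ^ n + D) - (D - N) / (p ^ (2 * n) + D) := by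
      field_simp; ring
    rw [e2]
    have h4 : (D - N) / (p ^ n + D) ≤ |D - N| / (p ^ n + D) := by
      gcongr; exact le_abs_self _
    have h5 : -((D - N) / (p ^ (2 * n) + D)) ≤ |D - N| / (p ^ n + D) := by
      rw [← neg_div]
      calc -(D - N) / (p ^ (2 * n) + D) ≤ |D - N| / (p ^ (2 * n) + D) := by
            gcongr; exact neg_le_abs _
        _ ≤ |D - N| / (p ^ n + D) := by gcongr
    have h6 : |D - N| * 2 / (p ^ n + D) = |D - N| / (p ^ n + D) + |D - N| / (p ^ n + D) := by ring
    linarith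
  have hlim : Tendsto (fun n : ℕ => (n:ℝ) * (|D - N| * 2 / (p ^ n + D))) atTop (𝓝 0) := by
    have h1 : Tendsto (fun n : ℕ => (n:ℝ) / p ^ n) atTop (𝓝 0) := by
      have := tendsto_pow_const_div_const_pow_of_one_lt 1 hp
      simpa using this
    have h2 : Tendsto (fun n : ℕ => 1 + D / p ^ n) atTop (𝓝 1) := by
      have h3 : Tendsto (fun n : ℕ => D / p ^ n) atTop (𝓝 0) := by
        have := (tendsto_pow_atTop_atTop_of_one_lt hp).const_div_atTop D
        exact this
      simpa using h3.const_add 1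
    have h3 := ((h1.div h2 one_ne_zero).mul_const (|D - N| * 2))
    simp only [zero_div, zero_mul] at h3
    refine h3.congr (fun n => ?_)
    have h4 := hpos n
    have h5 : 0 < p ^ n := by have := hpn n; linarith
    simp only [Pi.div_apply]
    field_simp
  -- b = 0
  have hb0 : b = 0 := by
    by_contra hne
    have hbpos : 0 < b := lt_of_le_of_ne hb (Ne.symm hne)
    have h1 : ∀ᶠ n : ℕ in atTop, (n:ℝ) * (|D - N| * 2 / (p ^ n + D)) < b :=
      (tendsto_order.1 hlim).2 b hbpos
    obtain ⟨n, hn1, hn2⟩ := (h1.and (eventually_ge_atTop 1)).exists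
    have hnr : (1:ℝ) ≤ n := by exact_mod_cast hn2
    have h2 := hup n hn2
    rw [hdiff n (by linarith)] at h2
    have h3 : 0 ≤ ∫ t in Ioi (0:ℝ), (Real.exp (-((n:ℝ) * t)) - Real.exp (-(2 * n * t))) * m t :=
      setIntegral_nonneg measurableSet_Ioi (fun t ht => hnn n (by linarith) t ht)
    have h4 : b * n ≤ |D - N| * 2 / (p ^ n + D) := by linarith
    have h5 : |D - N| * 2 / (p ^ n + D) ≤ (n:ℝ) * (|D - N| * 2 / (p ^ n + D)) := by
      have := hpos n
      have : 0 ≤ |D - N| * 2 / (p ^ n + D) := by positivity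
      nlinarith
    nlinarith
  -- m vanishes
  have hm0 : ∀ t : ℝ, 0 < t → m t = 0 := by
    intro t0 ht0
    by_contra hne
    have hmpos : 0 < m t0 := lt_of_le_of_ne (hm.nonneg ht0) (Ne.symm hne)
    set c' : ℝ := Real.exp (-2) * (1 - Real.exp (-1)) with hc'
    have hc'pos : 0 < c' := by
      have : Real.exp (-1) < 1 := by rw [Real.exp_lt_one_iff]; norm_num
      have := Real.exp_pos (-2)
      apply mul_pos this; linarith
    have h1 : ∀ᶠ n : ℕ in atTop, (n:ℝ) * (|D - N| * 2 / (p ^ n + D)) < c' * m t0 :=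
      (tendsto_order.1 hlim).2 _ (by positivity)
    have h2 : ∀ᶠ n : ℕ in atTop, 2 / t0 ≤ (n:ℝ) := tendsto_natCast_atTop_atTop.eventually_ge_atTop _
    obtain ⟨n, ⟨hn1, hn2⟩, hn3⟩ := ((h1.and (eventually_ge_atTop 1)).and h2).exists
    have hnr : (1:ℝ) ≤ n := by exact_mod_cast hn2
    have hn0 : (0:ℝ) < n := by linarith
    have h3 := hup n hn2
    rw [hdiff n hn0, hb0, zero_mul, zero_add] at h3
    have h2n : 2 / (n:ℝ) ≤ t0 := by
      rw [div_le_iff₀ ht0] at hn3
      rw [div_le_iff₀ hn0]; linarith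
    have h4 : c' * m t0 * (1 / n) ≤
        ∫ t in Ioi (0:ℝ), (Real.exp (-((n:ℝ) * t)) - Real.exp (-(2 * n * t))) * m t := by
      have hsub : Ioc (1/(n:ℝ)) (2/(n:ℝ)) ⊆ Ioi 0 := by
        intro t ht
        have : (0:ℝ) < 1 / n := by positivity
        exact lt_trans this ht.1
      calc c' * m t0 * (1 / n) = ∫ t in Ioc (1/(n:ℝ)) (2/(n:ℝ)), c' * m t0 := by
            rw [setIntegral_const]
            simp only [Real.volume_real_Ioc, smul_eq_mul]
            have e : 2 / (n:ℝ) - 1 / n = 1 / n := by ring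
            rw [e, max_eq_left (by positivity)]; ring
        _ ≤ ∫ t in Ioc (1/(n:ℝ)) (2/(n:ℝ)),
            (Real.exp (-((n:ℝ) * t)) - Real.exp (-(2 * n * t))) * m t := by
            apply setIntegral_mono_on _ ((hint n hn0).mono_set hsub) measurableSet_Ioc
            · intro t ht
              have ht0' : 0 < t := hsub ht
              have e1 : 1 ≤ (n:ℝ) * t := by
                have := ht.1
                rw [div_lt_iff₀ hn0] at this; linarith
              have e2 : (n:ℝ) * t ≤ 2 := by
                have := ht.2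
                rw [le_div_iff₀ hn0] at this; linarith
              apply mul_le_mul
              · have e3 : Real.exp (-(2 * n * t)) = Real.exp (-((n:ℝ) * t)) *
                    Real.exp (-((n:ℝ) * t)) := by
                  rw [← Real.exp_add]; congr 1; ring
                rw [e3]
                have e4 : Real.exp (-2) ≤ Real.exp (-((n:ℝ) * t)) := Real.exp_le_exp.mpr (by linarith)
                have e5 : Real.exp (-((n:ℝ) * t)) ≤ Real.exp (-1) := Real.exp_le_exp.mpr (by linarith)
                have e6 : Real.exp (-1) < 1 := by rw [Real.exp_lt_one_iff]; norm_num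
                have e7 := Real.exp_pos (-2)
                rw [hc']
                nlinarith
              · exact hm.antitoneOn ht0' ht0 (ht.2.trans h2n)
              · exact hmpos.le
              · have : Real.exp (-(2 * n * t)) ≤ Real.exp (-((n:ℝ) * t)) := by
                  apply Real.exp_le_exp.mpr
                  nlinarith
                linarith
            · exact integrableOn_const (by simp) enorm_ne_top
        _ ≤ _ := by
            apply setIntegral_mono_set (hint n hn0)
            · filter_upwards [ae_restrict_mem measurableSet_Ioi] with t ht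
              exact hnn n hn0 t ht
            · exact hsub.eventuallyLE
    have h5 : c' * m t0 * (1 / n) ≤ |D - N| * 2 / (p ^ n + D) := h4.trans h3
    have h6 : c' * m t0 ≤ (n:ℝ) * (|D - N| * 2 / (p ^ n + D)) := by
      have := mul_le_mul_of_nonneg_left h5 hn0.le
      have e : (n:ℝ) * (c' * m t0 * (1 / n)) = c' * m t0 := by field_simp
      rw [e] at this; exact this
    linarith
  -- conclusion
  have hconst : ∀ x : ℝ, 0 < x → F x = a := by
    intro x hx
    rw [hF x hx, hb0, zero_mul, add_zero]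
    have : ∫ t in Ioi (0:ℝ), (1 - Real.exp (-(x * t))) * m t = 0 := by
      rw [setIntegral_congr_fun measurableSet_Ioi (g := fun _ => (0:ℝ))]
      · simp
      · intro t ht
        simp only
        rw [hm0 t ht, mul_zero]
    rw [this, add_zero]
  have h1 := hFn 1 le_rfl
  have h2 := hFn 2 (by norm_num)
  rw [hconst _ (by norm_num)] at h1 h2
  rw [h1] at h2
  have h3 := hpos 1
  have h4 := hpos 2
  rw [div_eq_div_iff h3.ne' h4.ne'] at h2
  have h5 : (p ^ 2 - p ^ 1) * (D - N) = 0 := by linear_combination (-1) * h2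
  have h6 : p ^ 2 - p ^ 1 ≠ 0 := by
    have : 0 < p * (p - 1) := by apply mul_pos <;> linarith
    intro h; nlinarith
  have h7 := (mul_eq_zero.mp h5).resolve_left h6
  linarith

end Pool.Agent.Results.MP_e444d1_an.NoCBFInterpolant
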